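import Mathlib

/-!
# Lengths of continued fractions and Jacobi symbols: definitions

For an odd integer `p > 1` and `0 < n < p`, the rational number `p / n > 1` has a unique expansion
`[c_1; c_2, ..., c_λ]` with positive integers `c_i` and `c_λ > 1`.
-/

set_option autoImplicit false

namespace Q261.Rot

/-- the value `c_1 + 1 / (c_2 + 1 / (... + 1 / c_λ))` of a finite simple continued fraction -/
def cfVal : List ℕ → ℚ
  | [] => 0
  | [c] => c
  | c :: d :: l => c + 1 / cfVal (d :: l)

/-- `l = [c_1, ..., c_λ]` is the expansion of `p / n`: the `c_i` are positive integers, the last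
partial quotient `c_λ` is greater than `1`, and the value is `p / n` -/
def IsExpansion (p n : ℕ) (l : List ℕ) : Prop :=
  (∀ c ∈ l, 1 ≤ c) ∧ (∃ h : l ≠ [], 1 < l.getLast h) ∧ cfVal l = (p : ℚ) / (n : ℚ)

/-- `M_p`: the `0 < n < p` with `(n / p) = (-1) ^ λ(n)` -/
def M (p : ℕ) : Set ℕ :=
  {n | 0 < n ∧ n < p ∧ ∃ l : List ℕ, IsExpansion p n l ∧ jacobiSym (n : ℤ) p = (-1) ^ l.length}

/-- the set written `M-bar_p`: the `0 < n < p` with `(n / p) = (-1) ^ (λ(n) + 1)` -/
def Mbar (p : ℕ) : Set ℕ :=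
  {n | 0 < n ∧ n < p ∧
    ∃ l : List ℕ, IsExpansion p n l ∧ jacobiSym (n : ℤ) p = (-1) ^ (l.length + 1)}

/-- `N(p) = |M_p|` -/
noncomputable def N (p : ℕ) : ℕ := (M p).ncard

/-- the number written `N-bar(p)`, the number of elements of `M-bar_p` -/
noncomputable def Nbar (p : ℕ) : ℕ := (Mbar p).ncard

end Q261.Rot
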